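import Mathlib

set_option autoImplicit false

namespace Pool.Agent.Results.MP_26ecb3_co.Counter

open Finset

/-- `A` is `s`-spanning: every element is a signed sum with at most `s` terms. -/
def Spanning {G : Type} [AddCommGroup G] (s : ℕ) (A : Finset G) : Prop :=
  ∀ g : G, ∃ l : G → ℤ, ∑ a ∈ A, |l a| ≤ s ∧ g = ∑ a ∈ A, l a • a

/-- the least size of an `s`-spanning set. -/
noncomputable def phi (G : Type) [AddCommGroup G] (s : ℕ) : ℕ :=
  sInf {m : ℕ | ∃ A : Finset G, A.card = m ∧ Spanning s A}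

def L (s k : ℕ) : Prop :=
  (s = 2 ∧ k ∈ ({1, 2} : Finset ℕ)) ∨ (s = 3 ∧ k ∈ ({1, 2, 3, 4} : Finset ℕ)) ∨
    (s = 4 ∧ k ∈ ({1, 2, 3, 4, 5, 6, 8} : Finset ℕ)) ∨ (5 ≤ s ∧ k + 4 ≤ 3 * s)

theorem two : ∀ g : ZMod 2 × ZMod 24, ∃ x ∈ Finset.Icc (-5 : ℤ) 5, ∃ y ∈ Finset.Icc (-5 : ℤ) 5,
    |x| + |y| ≤ 5 ∧ g = ((y : ZMod 2), (3 * x + 2 * y : ZMod 24)) := by
  decide +kernel

theorem span2 : Spanning 5 ({(0, 3), (1, 2)} : Finset (ZMod 2 × ZMod 24)) := by
  intro g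
  obtain ⟨x, -, y, -, h1, h2⟩ := two g
  have hne : ((0, 3) : ZMod 2 × ZMod 24) ≠ (1, 2) := by decide
  refine ⟨fun a => if a = (0, 3) then x else y, ?_, ?_⟩
  · rw [Finset.sum_pair hne]
    simpa [hne.symm] using h1
  · rw [Finset.sum_pair hne, h2]
    simp only [if_true, if_neg hne.symm]
    ext <;> simp <;> ring

theorem not_one (A : Finset (ZMod 2 × ZMod 24)) (hA : A.card ≤ 1) : ¬ Spanning 5 A := by
  intro h
  obtain ⟨a, ha⟩ := Finset.card_le_one_iff_subset_singleton.1 hA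
  have key : (univ : Finset (ZMod 2 × ZMod 24)) ⊆ (Finset.Icc (-5 : ℤ) 5).image fun x => x • a := by
    intro g _
    obtain ⟨l, h1, h2⟩ := h g
    rcases Finset.subset_singleton_iff.1 ha with rfl | rfl
    · exact mem_image.2 ⟨0, by decide, by simp [h2]⟩
    · simp only [sum_singleton] at h1 h2
      exact mem_image.2 ⟨l a, Finset.mem_Icc.2 (abs_le.1 (by exact_mod_cast h1)), h2.symm⟩
  have := (Finset.card_le_card key).trans Finset.card_image_le
  simp at this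

/-- `(s, k) = (5, 12)` has value `2` but is not in the list. -/
theorem result : ∃ s k : ℕ, 1 ≤ s ∧ 1 ≤ k ∧ phi (ZMod 2 × ZMod (2 * k)) s = 2 ∧ ¬ L s k := by
  refine ⟨5, 12, by norm_num, by norm_num, ?_, by unfold L; decide⟩
  show phi (ZMod 2 × ZMod 24) 5 = 2
  have hm : 2 ∈ {m : ℕ | ∃ A : Finset (ZMod 2 × ZMod 24), A.card = m ∧ Spanning 5 A} :=
    ⟨_, by decide, span2⟩
  apply le_antisymm (Nat.sInf_le hm)
  obtain ⟨A, h1, h2⟩ := Nat.sInf_mem ⟨2, hm⟩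
  by_contra hc
  exact not_one A (by omega) h2

end Pool.Agent.Results.MP_26ecb3_co.Counter
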